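import Pool.Agent.Helper68.DS.Goals2

set_option autoImplicit false

/-!
# MP_52cd29_ag Q1 (sums of determinants): a linear map of maximal rank in a family
-/

namespace Pool.Agent.Helper77.DS

open Pool.Agent.Helper68.DS

theorem RNK (h1 : PM_stmt) (h2 : SC_stmt) : RNK_stmt := by
  intro V W _ _ _ _ _ A B C hC hT v hv
  by_contra hB
  let b := Module.finBasis ℂ (LinearMap.range A)
  choose u hu using fun i => (b i).2
  let F : Option (Fin (Module.finrank ℂ (LinearMap.range A))) → ℂ → W := fun a t =>
    match a with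
    | none => B v + t • C t v
    | some i => (A (u i) + t • B (u i)) + t • t • C t (u i)
  have hF : ∀ a, IsPolyMap (F a) := by
    intro a
    cases a with
    | none => exact h1.add _ _ _ (h1.const _ _) (h1.tsmul _ _ (hC v))
    | some i => exact h1.add _ _ _ (h1.line _ _ _) (h1.tsmul _ _ (h1.tsmul _ _ (hC (u i))))
  have hlt : Module.finrank ℂ (LinearMap.range A) <
      Module.finrank ℂ ↥((⊥ : Submodule ℂ W) ⊔ Submodule.span ℂ (Set.range fun a => F a 0)) := by
    rw [bot_sup_eq]
    have : FiniteDimensional ℂ (Submodule.span ℂ (Set.range fun a => F a 0)) :=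
      FiniteDimensional.span_of_finite ℂ (Set.finite_range _)
    refine Submodule.finrank_lt_finrank_of_lt (lt_of_le_of_ne ?_ ?_)
    · have h3 : LinearMap.range A = Submodule.span ℂ (Set.range fun i => ((b i : LinearMap.range A) : W)) := by
        have h4 := congrArg (Submodule.map (LinearMap.range A).subtype) b.span_eq
        rw [Submodule.map_span, Submodule.map_subtype_top, ← Set.range_comp] at h4
        exact h4.symm
      refine h3.le.trans (Submodule.span_le.mpr ?_)
      rintro _ ⟨i, rfl⟩
      refine Submodule.subset_span ⟨some i, ?_⟩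
      change (A (u i) + (0 : ℂ) • B (u i)) + (0 : ℂ) • (0 : ℂ) • C 0 (u i) = _
      rw [zero_smul, zero_smul, add_zero, add_zero]
      exact hu i
    · intro h
      apply hB
      rw [h]
      refine Submodule.subset_span ⟨none, ?_⟩
      change B v + (0 : ℂ) • C 0 v = _
      rw [zero_smul, add_zero]
  have hfin := h2 W ⊥ (Option (Fin (Module.finrank ℂ (LinearMap.range A)))) F hF 0
  refine (Set.finite_singleton (0 : ℂ)).infinite_compl (hfin.subset fun t ht => ?_)
  have ht0 : t ≠ 0 := ht
  refine lt_of_le_of_lt ?_ hlt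
  refine le_trans (Submodule.finrank_mono ?_) (hT t)
  rw [bot_sup_eq]
  refine Submodule.span_le.mpr ?_
  rintro _ ⟨a, rfl⟩
  cases a with
  | none =>
    refine ⟨t⁻¹ • v, ?_⟩
    change (A + t • B + t ^ 2 • C t) (t⁻¹ • v) = B v + t • C t v
    simp only [LinearMap.add_apply, LinearMap.smul_apply, map_smul, hv, zero_add, smul_add]
    have e3 : t⁻¹ * t = 1 := inv_mul_cancel₀ ht0
    have e2 : t⁻¹ * t ^ 2 = t := by rw [pow_two, ← mul_assoc, e3, one_mul]
    rw [smul_smul, smul_smul, e3, e2, one_smul]
  | some i =>
    refine ⟨u i, ?_⟩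
    change (A + t • B + t ^ 2 • C t) (u i) = (A (u i) + t • B (u i)) + t • t • C t (u i)
    simp only [LinearMap.add_apply, LinearMap.smul_apply, smul_smul, pow_two]

end Pool.Agent.Helper77.DS
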